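import Mathlib
import Pool.Agent.Zk91.SQ.Defs3

/-!
# Module B1: orthogonality of the sine products
-/

set_option autoImplicit false
set_option linter.all false

open MeasureTheory

namespace Pool.Agent.Zk80.SQ

open Pool.Agent.Zk91.SQ

theorem int_cos (a : ℝ) (ha : 0 < a) (k : ℤ) (hk : k ≠ 0) :
    ∫ x in (0 : ℝ)..a, Real.cos (Real.pi / a * k * x) = 0 := by
  have hc : Real.pi / a * k ≠ 0 := by
    have : (k : ℝ) ≠ 0 := by exact_mod_cast hk
    have h2 := Real.pi_pos.ne'
    positivity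
  rw [intervalIntegral.integral_comp_mul_left (fun x => Real.cos x) hc, integral_cos]
  have h1 : Real.pi / a * k * a = k * Real.pi := by
    field_simp
  rw [h1, Real.sin_int_mul_pi, mul_zero, Real.sin_zero, sub_zero, smul_zero]

theorem int_sin (a : ℝ) (ha : 0 < a) (m n : ℕ) (hm : 0 < m) (hn : 0 < n) :
    ∫ x in Set.Ioo (0 : ℝ) a, Real.sin (Real.pi / a * m * x) * Real.sin (Real.pi / a * n * x) =
      if m = n then a / 2 else 0 := by
  rw [← integral_Ioc_eq_integral_Ioo, ← intervalIntegral.integral_of_le ha.le]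
  have h1 : ∀ x : ℝ, Real.sin (Real.pi / a * m * x) * Real.sin (Real.pi / a * n * x) =
      (Real.cos (Real.pi / a * ((m : ℤ) - (n : ℤ) : ℤ) * x) -
        Real.cos (Real.pi / a * ((m : ℤ) + (n : ℤ) : ℤ) * x)) / 2 := by
    intro x
    have h2 : Real.pi / a * ((m : ℤ) - (n : ℤ) : ℤ) * x = Real.pi / a * m * x - Real.pi / a * n * x := by
      push_cast
      ring
    have h3 : Real.pi / a * ((m : ℤ) + (n : ℤ) : ℤ) * x = Real.pi / a * m * x + Real.pi / a * n * x := by
      push_cast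
      ring
    rw [h2, h3, Real.cos_sub, Real.cos_add]
    ring
  simp only [h1]
  have hcc : ∀ c : ℝ, IntervalIntegrable (fun x : ℝ => Real.cos (c * x)) volume 0 a := fun c =>
    (Real.continuous_cos.comp (continuous_const.mul continuous_id)).intervalIntegrable _ _
  rw [intervalIntegral.integral_div, intervalIntegral.integral_sub (hcc _) (hcc _),
    int_cos a ha ((m : ℤ) + (n : ℤ)) (by omega), sub_zero]
  by_cases hmn : m = n
  · rw [if_pos hmn, hmn]
    simp
  · rw [if_neg hmn, int_cos a ha ((m : ℤ) - (n : ℤ)) (by omega), zero_div]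

theorem b1 : S_B1 := by
  intro a ha p q hp1 hp2 hq1 hq2
  have h1 : Sqa a = Complex.measurableEquivRealProd ⁻¹' (Set.Ioo 0 a ×ˢ Set.Ioo 0 a) := by
    ext z
    simp [Sqa, Complex.measurableEquivRealProd]
  have h2 := (Complex.volume_preserving_equiv_real_prod).setIntegral_preimage_emb
    (Complex.measurableEquivRealProd).measurableEmbedding
    (fun z : ℝ × ℝ => (4 * (Real.sin (Real.pi / a * p.1 * z.1) * Real.sin (Real.pi / a * q.1 * z.1))) *
      (Real.sin (Real.pi / a * p.2 * z.2) * Real.sin (Real.pi / a * q.2 * z.2)))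
    (Set.Ioo 0 a ×ˢ Set.Ioo 0 a)
  have h3 : ∫ z in Sqa a, md a p z * md a q z = ∫ z in Set.Ioo (0 : ℝ) a ×ˢ Set.Ioo (0 : ℝ) a,
      (4 * (Real.sin (Real.pi / a * p.1 * z.1) * Real.sin (Real.pi / a * q.1 * z.1))) *
      (Real.sin (Real.pi / a * p.2 * z.2) * Real.sin (Real.pi / a * q.2 * z.2)) := by
    rw [← h2, h1]
    congr 1
    ext z
    simp only [md, Complex.measurableEquivRealProd_apply]
    ring
  rw [h3, Measure.volume_eq_prod]
  rw [setIntegral_prod_mul (fun x : ℝ => 4 * (Real.sin (Real.pi / a * p.1 * x) *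
    Real.sin (Real.pi / a * q.1 * x))) (fun y : ℝ => Real.sin (Real.pi / a * p.2 * y) *
    Real.sin (Real.pi / a * q.2 * y)) (Set.Ioo 0 a) (Set.Ioo 0 a)]
  rw [integral_const_mul, int_sin a ha p.1 q.1 hp1 hq1, int_sin a ha p.2 q.2 hp2 hq2]
  by_cases h4 : p.1 = q.1
  · by_cases h5 : p.2 = q.2
    · rw [if_pos h4, if_pos h5, if_pos (Prod.ext h4 h5)]
      ring
    · rw [if_neg h5, if_neg (fun h => h5 (congrArg Prod.snd h)), mul_zero]
  · rw [if_neg h4, if_neg (fun h => h4 (congrArg Prod.fst h)), mul_zero, zero_mul]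

end Pool.Agent.Zk80.SQ
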