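import Mathlib
import Pool.Agent.Zk91.SQ.Defs

/-!
# Module M4: the product bound for the angular sums
-/

set_option autoImplicit false
set_option linter.all false

namespace Pool.Agent.Zk80.SQ

open Pool.Agent.Zk91.SQ

theorem pi_irr (p : ℕ) (hp : P1 p) : Irreducible (gp p) := by
  have hn := gp_norm p hp
  refine ⟨?_, ?_⟩
  · intro hu
    have h1 := Zsqrtd.norm_eq_one_iff.2 hu
    rw [hn, Int.natAbs_natCast] at h1
    exact hp.1.one_lt.ne' h1
  · intro a b hab
    have h1 : a.norm.natAbs * b.norm.natAbs = p := by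
      rw [← Int.natAbs_mul, ← Zsqrtd.norm_mul, ← hab, hn, Int.natAbs_natCast]
    rcases (Nat.prime_mul_iff.1 (h1 ▸ hp.1)) with ⟨_, h2⟩ | ⟨_, h2⟩
    · exact Or.inr (Zsqrtd.norm_eq_one_iff.1 h2)
    · exact Or.inl (Zsqrtd.norm_eq_one_iff.1 h2)

theorem pi_prime (p : ℕ) (hp : P1 p) : Prime (gp p) := (pi_irr p hp).prime

theorem dvd_of_norm (p : ℕ) (hp : P1 p) (ξ : G) (h : (p : ℤ) ∣ ξ.norm) :
    gp p ∣ ξ ∨ star (gp p) ∣ ξ := by
  have h1 : gp p ∣ ξ * star ξ := by
    obtain ⟨c, hc⟩ := h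
    rw [← Zsqrtd.norm_eq_mul_conj, hc, ← gp_norm p hp, Int.cast_mul, Zsqrtd.norm_eq_mul_conj]
    exact ⟨star (gp p) * ((c : ℤ) : G), by ring⟩
  rcases (pi_prime p hp).dvd_or_dvd h1 with h2 | h2
  · exact Or.inl h2
  · obtain ⟨c, hc⟩ := h2
    right
    refine ⟨star c, ?_⟩
    have h3 := congrArg star hc
    rw [star_star, star_mul] at h3
    rw [h3, mul_comm]

theorem norm_of_dvd (p : ℕ) (hp : P1 p) (ξ : G) (h : gp p ∣ ξ) : (p : ℤ) ∣ ξ.norm := by
  obtain ⟨c, rfl⟩ := h
  rw [Zsqrtd.norm_mul, gp_norm p hp]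
  exact dvd_mul_right _ _

theorem not_dvd_star (p : ℕ) (hp : P1 p) : ¬ gp p ∣ star (gp p) := by
  intro h
  have hn := gp_norm p hp
  rw [norm_eq] at hn
  have h2 : gp p ∣ ((2 * (gp p).re : ℤ) : G) := by
    have h3 : ((2 * (gp p).re : ℤ) : G) = gp p + star (gp p) := by
      apply Zsqrtd.ext
      · simp [two_mul]
      · simp
    rw [h3]
    exact dvd_add (dvd_refl _) h
  have h4 := norm_of_dvd p hp _ h2
  rw [Zsqrtd.norm_intCast] at h4
  have hpp : Prime (p : ℤ) := Nat.prime_iff_prime_int.1 hp.1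
  have h5 : (p : ℤ) ∣ 2 * (gp p).re := (hpp.dvd_or_dvd h4).elim id id
  have hp2 : ¬ (p : ℤ) ∣ 2 := by
    intro h6
    have h7 : p ∣ 2 := by exact_mod_cast h6
    have h8 := (Nat.prime_dvd_prime_iff_eq hp.1 Nat.prime_two).1 h7
    have h9 := hp.2
    omega
  have h6 : (p : ℤ) ∣ (gp p).re := (hpp.dvd_or_dvd h5).resolve_left hp2
  have h7 : (p : ℤ) ∣ (gp p).im * (gp p).im := by
    have h8 : (gp p).im * (gp p).im = p - (gp p).re * (gp p).re := by linarith
    rw [h8]
    exact dvd_sub (dvd_refl _) (h6.mul_right _)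
  have h8 : (p : ℤ) ∣ (gp p).im := (hpp.dvd_or_dvd h7).elim id id
  have h9 : (p : ℤ) * p ∣ (p : ℤ) := by
    conv_rhs => rw [← hn]
    exact dvd_add (mul_dvd_mul h6 h6) (mul_dvd_mul h8 h8)
  have h10 : (p : ℤ) ≠ 0 := hpp.ne_zero
  have h11 : (p : ℤ) ∣ 1 := by
    have : (p : ℤ) * p ∣ (p : ℤ) * 1 := by rwa [mul_one]
    exact (mul_dvd_mul_iff_left h10).1 this
  exact hpp.not_unit (isUnit_of_dvd_one h11)

theorem circ_mul (p N : ℕ) (hp : P1 p) :
    circ (p * N) = (circ N).image (fun η => gp p * η) ∪ (circ N).image (fun η => star (gp p) * η) := by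
  ext ξ
  rw [mem_circ, Finset.mem_union, Finset.mem_image, Finset.mem_image]
  have hp0 : (p : ℤ) ≠ 0 := by exact_mod_cast hp.1.ne_zero
  constructor
  · intro h
    have h1 : (p : ℤ) ∣ ξ.norm := by
      rw [h]
      push_cast
      exact dvd_mul_right _ _
    rcases dvd_of_norm p hp ξ h1 with ⟨η, hη⟩ | ⟨η, hη⟩
    · left
      refine ⟨η, ?_, hη.symm⟩
      rw [mem_circ]
      rw [hη, Zsqrtd.norm_mul, gp_norm p hp] at h
      push_cast at h
      exact mul_left_cancel₀ hp0 h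
    · right
      refine ⟨η, ?_, hη.symm⟩
      rw [mem_circ]
      rw [hη, Zsqrtd.norm_mul, Zsqrtd.norm_conj, gp_norm p hp] at h
      push_cast at h
      exact mul_left_cancel₀ hp0 h
  · rintro (⟨η, hη, rfl⟩ | ⟨η, hη, rfl⟩)
    · rw [mem_circ] at hη
      rw [Zsqrtd.norm_mul, gp_norm p hp, hη]
      push_cast
      rfl
    · rw [mem_circ] at hη
      rw [Zsqrtd.norm_mul, Zsqrtd.norm_conj, gp_norm p hp, hη]
      push_cast
      rfl

theorem circ_disj (p N : ℕ) (hp : P1 p) (hN : ¬ p ∣ N) :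
    Disjoint ((circ N).image (fun η => gp p * η)) ((circ N).image (fun η => star (gp p) * η)) := by
  rw [Finset.disjoint_left]
  intro ξ h1 h2
  rw [Finset.mem_image] at h1 h2
  obtain ⟨η, hη, rfl⟩ := h1
  obtain ⟨η', hη', h3⟩ := h2
  rw [mem_circ] at hη'
  have h4 : gp p ∣ star (gp p) * η' := by
    rw [h3]
    exact dvd_mul_right _ _
  rcases (pi_prime p hp).dvd_or_dvd h4 with h5 | h5
  · exact not_dvd_star p hp h5
  · have h6 := norm_of_dvd p hp _ h5
    rw [hη'] at h6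
    exact hN (by exact_mod_cast h6)

theorem gp_ne (p : ℕ) (hp : P1 p) : gp p ≠ 0 := (pi_prime p hp).ne_zero

theorem star_ne (p : ℕ) (hp : P1 p) : star (gp p) ≠ 0 := by
  intro h
  apply gp_ne p hp
  have h1 := congrArg star h
  rw [star_star, star_zero] at h1
  exact h1

theorem inj1 (p : ℕ) (hp : P1 p) : Function.Injective (fun η : G => gp p * η) :=
  fun _ _ h => mul_left_cancel₀ (gp_ne p hp) h

theorem inj2 (p : ℕ) (hp : P1 p) : Function.Injective (fun η : G => star (gp p) * η) :=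
  fun _ _ h => mul_left_cancel₀ (star_ne p hp) h

theorem card_mul (p N : ℕ) (hp : P1 p) (hN : ¬ p ∣ N) :
    (circ (p * N)).card = 2 * (circ N).card := by
  rw [circ_mul p N hp, Finset.card_union_of_disjoint (circ_disj p N hp hN),
    Finset.card_image_of_injective _ (inj1 p hp), Finset.card_image_of_injective _ (inj2 p hp),
    two_mul]

theorem psi_mul (k : ℕ) (a b : G) : psi k (a * b) = psi k a * psi k b := by
  unfold psi
  rw [GaussianInt.toComplex_mul, Zsqrtd.norm_mul, Int.cast_mul, mul_pow, mul_pow,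
    div_mul_div_comm]

theorem psi_star (k : ℕ) (a : G) : psi k (star a) = (starRingEnd ℂ) (psi k a) := by
  unfold psi
  rw [GaussianInt.toComplex_star, Zsqrtd.norm_conj, map_div₀, map_pow, map_pow]
  simp

theorem A_mul (k p N : ℕ) (hp : P1 p) (hN : ¬ p ∣ N) :
    A k (p * N) = (2 * cc k p : ℝ) * A k N := by
  unfold A
  rw [circ_mul p N hp, Finset.sum_union (circ_disj p N hp hN),
    Finset.sum_image (fun a _ b _ h => inj1 p hp h), Finset.sum_image (fun a _ b _ h => inj2 p hp h)]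
  simp only [psi_mul, psi_star]
  rw [← Finset.mul_sum, ← Finset.mul_sum, ← add_mul, Complex.add_conj]
  rfl

theorem psi_le (k : ℕ) (ξ : G) : ‖psi k ξ‖ ≤ 1 := by
  unfold psi
  have h1 : ‖GaussianInt.toComplex ξ‖ ^ 2 = ((ξ.norm : ℤ) : ℝ) := by
    rw [Complex.sq_norm]
    exact (GaussianInt.intCast_real_norm ξ).symm
  rw [norm_div, norm_pow, norm_pow]
  have h2 : ‖((ξ.norm : ℤ) : ℂ)‖ = ‖GaussianInt.toComplex ξ‖ ^ 2 := by
    rw [h1]
    rw [Complex.norm_intCast, abs_of_nonneg]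
    rw [← h1]
    positivity
  rw [h2, ← pow_mul, show 2 * (2 * k) = 4 * k by ring]
  exact div_self_le_one _

theorem A_le (k N : ℕ) : ‖A k N‖ ≤ (circ N).card := by
  unfold A
  refine (norm_sum_le _ _).trans ?_
  refine (Finset.sum_le_sum fun ξ _ => psi_le k ξ).trans ?_
  simp

theorem main (k : ℕ) (P : Finset ℕ) (hP : ∀ p ∈ P, P1 p) : ∀ N : ℕ,
    (∀ p ∈ P, ∃ M, N = p * M ∧ ¬ p ∣ M) → ‖A k N‖ ≤ (∏ p ∈ P, |cc k p|) * (circ N).card := by
  classical
  induction P using Finset.induction_on with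
  | empty =>
    intro N _
    rw [Finset.prod_empty, one_mul]
    exact A_le k N
  | insert p P hp ih =>
    intro N hN
    obtain ⟨M, hM, hpM⟩ := hN p (Finset.mem_insert_self p P)
    have hp1 : P1 p := hP p (Finset.mem_insert_self p P)
    have h1 := ih (fun q hq => hP q (Finset.mem_insert_of_mem hq)) M (by
      intro q hq
      obtain ⟨L, hL, hqL⟩ := hN q (Finset.mem_insert_of_mem hq)
      have hq1 : P1 q := hP q (Finset.mem_insert_of_mem hq)
      have hne : q ≠ p := by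
        rintro rfl
        exact hp hq
      have h2 : q ∣ p * M := by
        rw [← hM, hL]
        exact dvd_mul_right _ _
      have h3 : q ∣ M := by
        rcases hq1.1.dvd_mul.1 h2 with h4 | h4
        · exact absurd ((Nat.prime_dvd_prime_iff_eq hq1.1 hp1.1).1 h4) hne
        · exact h4
      obtain ⟨M', hM'⟩ := h3
      refine ⟨M', hM', fun h4 => hqL ?_⟩
      have h5 : q * L = q * (p * M') := by
        rw [← hL, hM, hM']
        ring
      have h6 : L = p * M' := Nat.eq_of_mul_eq_mul_left hq1.1.pos h5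
      rw [h6]
      exact h4.mul_left _)
    rw [hM, A_mul k p M hp1 hpM, card_mul p M hp1 hpM, Finset.prod_insert hp, norm_mul,
      Complex.norm_real, Real.norm_eq_abs, abs_mul, abs_two]
    push_cast
    have h2 : 0 ≤ 2 * |cc k p| := by positivity
    calc 2 * |cc k p| * ‖A k M‖ ≤ 2 * |cc k p| * ((∏ q ∈ P, |cc k q|) * (circ M).card) :=
          mul_le_mul_of_nonneg_left h1 h2
      _ = _ := by ring

theorem m4 : S_M4 := by
  intro k P hP ξ hξ
  classical
  have h1 : ∏ p ∈ P, (1 - (1 - |cc k p|) * ind p ξ) =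
      ∏ p ∈ P.filter (fun p => gp p ∣ ξ ∧ ¬ (gp p ^ 2 ∣ ξ) ∧ ¬ (star (gp p) ∣ ξ)), |cc k p| := by
    rw [Finset.prod_filter]
    apply Finset.prod_congr rfl
    intro p _
    unfold ind
    by_cases h : gp p ∣ ξ ∧ ¬ (gp p ^ 2 ∣ ξ) ∧ ¬ (star (gp p) ∣ ξ)
    · rw [if_pos h, if_pos h]
      ring
    · rw [if_neg h, if_neg h]
      ring
  rw [h1]
  apply main
  · intro p hp
    exact hP p (Finset.mem_filter.1 hp).1
  · intro p hp
    obtain ⟨hpP, ⟨η, hη⟩, h2, h3⟩ := Finset.mem_filter.1 hp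
    have hp1 := hP p hpP
    have hnn : 0 ≤ η.norm := by
      rw [norm_eq]
      nlinarith [mul_self_nonneg η.re, mul_self_nonneg η.im]
    refine ⟨η.norm.toNat, ?_, ?_⟩
    · rw [hη, Zsqrtd.norm_mul, gp_norm p hp1, Int.toNat_mul (by positivity) hnn,
        Int.toNat_natCast]
    · intro h4
      have h5 : (p : ℤ) ∣ η.norm := by
        rw [← Int.toNat_of_nonneg hnn]
        exact_mod_cast h4
      rcases dvd_of_norm p hp1 η h5 with h6 | h6
      · apply h2
        rw [hη, pow_two]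
        exact mul_dvd_mul_left _ h6
      · apply h3
        rw [hη]
        exact h6.mul_left _

end Pool.Agent.Zk80.SQ
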