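import Mathlib
import Pool.Agent.Zk91.SQ.Defs6

/-!
The mean value property of the tent function (helper80, module W1 for helper91)
-/

set_option autoImplicit false
set_option linter.all false

open MeasureTheory Filter Topology

namespace Pool.Agent.Zk80.SQ

open Pool.Agent.Zk91.SQ

lemma T0_cont : Continuous T0 := by
  unfold T0
  exact continuous_const.max (continuous_const.sub continuous_norm)

lemma T0_supp : HasCompactSupport T0 := by
  refine HasCompactSupport.of_support_subset_isCompact (isCompact_closedBall (0 : ℂ) 1) ?_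
  intro y hy
  rw [Function.mem_support] at hy
  rw [mem_closedBall_zero_iff]
  by_contra hcon
  push Not at hcon
  apply hy
  unfold T0
  exact max_eq_left (by linarith)

lemma T0_int {g : ℂ → ℝ} (hg : Continuous g) : Integrable (fun y => T0 y * g y) :=
  (T0_cont.mul hg).integrable_of_hasCompactSupport (T0_supp.mul_right)

lemma T0_rot {c1 c2 : ℝ} (h : c1 ^ 2 + c2 ^ 2 = 1) :
    ∫ y : ℂ, T0 y * Real.cos (c1 * y.re + c2 * y.im) = kp := by
  have hn : ‖(⟨c1, -c2⟩ : ℂ)‖ = 1 := by
    rw [Complex.norm_def, Complex.normSq_mk, Real.sqrt_eq_one]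
    nlinarith
  set u : Circle := ⟨⟨c1, -c2⟩, mem_sphere_zero_iff_norm.2 hn⟩ with hu
  have h1 := (rotation u).measurePreserving
  have h2 := h1.integral_comp (rotation u).toHomeomorph.measurableEmbedding
    (fun y : ℂ => T0 y * Real.cos y.re)
  unfold kp
  rw [← h2]
  congr 1
  funext y
  have h3 : rotation u y = (⟨c1, -c2⟩ : ℂ) * y := rfl
  have h4 : T0 (rotation u y) = T0 y := by
    unfold T0
    rw [LinearIsometryEquiv.norm_map]
  rw [h4, h3, Complex.mul_re]
  congr 2
  ring

lemma T0_odd (c1 c2 : ℝ) : ∫ y : ℂ, T0 y * Real.sin (c1 * y.re + c2 * y.im) = 0 := by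
  have h2 := integral_neg_eq_self (fun y : ℂ => T0 y * Real.sin (c1 * y.re + c2 * y.im)) volume
  have h3 : (fun y : ℂ => T0 (-y) * Real.sin (c1 * (-y).re + c2 * (-y).im)) =
      fun y => -(T0 y * Real.sin (c1 * y.re + c2 * y.im)) := by
    funext y
    have h4 : T0 (-y) = T0 y := by
      unfold T0
      rw [norm_neg]
    rw [h4, Complex.neg_re, Complex.neg_im,
      show c1 * -y.re + c2 * -y.im = -(c1 * y.re + c2 * y.im) by ring, Real.sin_neg]
    ring
  rw [h3, integral_neg] at h2
  linarith

lemma T0_shift {c1 c2 : ℝ} (h : c1 ^ 2 + c2 ^ 2 = 1) (γ : ℝ) :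
    ∫ y : ℂ, T0 y * Real.cos (c1 * y.re + c2 * y.im + γ) = kp * Real.cos γ := by
  have h1 : (fun y : ℂ => T0 y * Real.cos (c1 * y.re + c2 * y.im + γ)) =
      fun y => (T0 y * Real.cos (c1 * y.re + c2 * y.im)) * Real.cos γ -
        (T0 y * Real.sin (c1 * y.re + c2 * y.im)) * Real.sin γ := by
    funext y
    rw [Real.cos_add]
    ring
  have i1 : Integrable (fun y : ℂ => T0 y * Real.cos (c1 * y.re + c2 * y.im)) :=
    T0_int (by fun_prop)
  have i2 : Integrable (fun y : ℂ => T0 y * Real.sin (c1 * y.re + c2 * y.im)) :=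
    T0_int (by fun_prop)
  rw [h1, integral_sub (i1.mul_const _) (i2.mul_const _), integral_mul_const, integral_mul_const,
    T0_rot h, T0_odd]
  ring

lemma kp_pos : 0 < kp := by
  unfold kp
  have hc : Continuous fun y : ℂ => T0 y * Real.cos y.re :=
    T0_cont.mul (Real.continuous_cos.comp Complex.continuous_re)
  refine hc.integral_pos_of_hasCompactSupport_nonneg_nonzero (x := 0) T0_supp.mul_right ?_ ?_
  · intro y
    show 0 ≤ T0 y * Real.cos y.re
    rcases le_or_gt 1 ‖y‖ with h | h
    · have : T0 y = 0 := max_eq_left (by linarith)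
      rw [this, zero_mul]
    · refine mul_nonneg (le_max_left _ _) ?_
      have h1 := Complex.abs_re_le_norm y
      have h2 := abs_lt.1 (lt_of_le_of_lt h1 h)
      have h3 := Real.pi_gt_three
      exact Real.cos_nonneg_of_mem_Icc ⟨by linarith [h2.1], by linarith [h2.2]⟩
  · show T0 0 * Real.cos (0 : ℂ).re ≠ 0
    have : T0 0 = 1 := by
      unfold T0
      rw [norm_zero, sub_zero]
      exact max_eq_right zero_le_one
    rw [this, Complex.zero_re, Real.cos_zero]
    norm_num

theorem w1 : S_W1 := by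
  refine ⟨kp_pos, fun a1 a2 α β h => ?_⟩
  have h1 : (fun y : ℂ => T0 y * (Real.sin (a1 * y.re + α) * Real.sin (a2 * y.im + β))) =
      fun y => (T0 y * Real.cos (a1 * y.re + (-a2) * y.im + (α - β))) * (1 / 2) -
        (T0 y * Real.cos (a1 * y.re + a2 * y.im + (α + β))) * (1 / 2) := by
    funext y
    have e1 : a1 * y.re + (-a2) * y.im + (α - β) = (a1 * y.re + α) - (a2 * y.im + β) := by ring
    have e2 : a1 * y.re + a2 * y.im + (α + β) = (a1 * y.re + α) + (a2 * y.im + β) := by ring
    rw [e1, e2, Real.cos_sub (a1 * y.re + α), Real.cos_add (a1 * y.re + α)]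
    ring
  have i1 : Integrable (fun y : ℂ => T0 y * Real.cos (a1 * y.re + (-a2) * y.im + (α - β))) :=
    T0_int (by fun_prop)
  have i2 : Integrable (fun y : ℂ => T0 y * Real.cos (a1 * y.re + a2 * y.im + (α + β))) :=
    T0_int (by fun_prop)
  rw [h1, integral_sub (i1.mul_const _) (i2.mul_const _), integral_mul_const, integral_mul_const,
    T0_shift (by rw [neg_sq]; exact h), T0_shift h, Real.cos_sub, Real.cos_add]
  ring

end Pool.Agent.Zk80.SQ
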